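import Pool.Agent.P.MP_7ffab6_lc.GLC.Iface

/-! Step BLK. -/

set_option autoImplicit false
set_option linter.unusedSectionVars false

namespace Pool.Agent.P.MP_7ffab6_lc.GLC

open Finset

namespace BLKx

variable {ι : Type} [Fintype ι] [DecidableEq ι] {m : ℕ}

/-- flip the blocks chosen by `t` -/
def g (B : Fin m → Finset ι) (z : ι → Bool) (t : Fin m → Bool) (e : ι) : Bool :=
  xor (z e) (decide (∃ j, e ∈ B j ∧ t j = true))

lemma g_mem {B : Fin m → Finset ι} (hB : Pairwise fun j k => Disjoint (B j) (B k))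
    (z : ι → Bool) (t : Fin m → Bool) {e : ι} {j : Fin m} (h : e ∈ B j) :
    g B z t e = xor (z e) (t j) := by
  have : (∃ k, e ∈ B k ∧ t k = true) ↔ t j = true := by
    refine ⟨fun ⟨k, h1, h2⟩ => ?_, fun h2 => ⟨j, h, h2⟩⟩
    by_cases e1 : k = j
    · exact e1 ▸ h2
    · exact absurd h (disjoint_left.1 (hB e1) h1)
  simp [g, this]

lemma g_not {B : Fin m → Finset ι} (z : ι → Bool) (t : Fin m → Bool) {e : ι}
    (h : ∀ j, e ∉ B j) : g B z t e = z e := by
  simp [g, h]

lemma g_g (B : Fin m → Finset ι) (t : Fin m → Bool) (z : ι → Bool) :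
    g B (g B z t) t = z := by
  funext e
  simp [g]

lemma g_fl {B : Fin m → Finset ι} (hB : Pairwise fun j k => Disjoint (B j) (B k))
    (z : ι → Bool) (t : Fin m → Bool) (j : Fin m) :
    g B z (fl t j) = fun e => if e ∈ B j then !g B z t e else g B z t e := by
  funext e
  by_cases h : e ∈ B j
  · rw [if_pos h, g_mem hB z _ h, g_mem hB z _ h, fl_self]
    cases z e <;> cases t j <;> rfl
  · rw [if_neg h]
    by_cases h2 : ∃ k, e ∈ B k
    · obtain ⟨k, hk⟩ := h2
      rw [g_mem hB z _ hk, g_mem hB z _ hk, fl_ne t fun e1 : k = j => h (e1 ▸ hk)]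
    · rw [g_not z _ fun k hk => h2 ⟨k, hk⟩, g_not z _ fun k hk => h2 ⟨k, hk⟩]

lemma sg_g {B : Fin m → Finset ι} (hB : Pairwise fun j k => Disjoint (B j) (B k))
    (z : ι → Bool) (e : ι) : (fun t => sg (g B z t e)) ∈ Pd (Fin m) 1 := by
  by_cases h2 : ∃ k, e ∈ B k
  · obtain ⟨k, hk⟩ := h2
    have := (Pd (Fin m) 1).smul_mem (sg (z e)) (sg_mem k)
    convert this using 1
    funext t
    rw [g_mem hB z _ hk, Pi.smul_apply, smul_eq_mul]
    cases z e <;> cases t k <;> simp [sg]
  · simp only [g_not z _ fun k hk => h2 ⟨k, hk⟩]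
    exact const_mem _ _

lemma comp_mem {B : Fin m → Finset ι} (hB : Pairwise fun j k => Disjoint (B j) (B k))
    (z : ι → Bool) {D : ℕ} {q : (ι → Bool) → ℝ} (hq : q ∈ Pd ι D) :
    (fun t => q (g B z t)) ∈ Pd (Fin m) D := by
  induction hq using Submodule.span_induction with
  | mem f h =>
    obtain ⟨S, hS, rfl⟩ := h
    refine Pd_mono ?_ (prod_mem S (fun e t => sg (g B z t e)) (fun _ => 1) fun e _ => sg_g hB z e)
    simpa using hS
  | zero => exact zero_mem _
  | add f k _ _ h1 h2 => exact add_mem h1 h2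
  | smul c f _ h1 => exact Submodule.smul_mem _ c h1

end BLKx

open BLKx in
theorem p_BLK (hAS : S_AS) :
    S_BLK := by
  intro ι _ _ D m q θ hq B hB F hF
  have h1 : ∀ z : ι → Bool, ∑ t, ((F (g B z t)).card : ℝ) ≤ 6 * D * √(m : ℝ) * 2 ^ m := fun z => by
    have := hAS (Fin m) D _ θ (comp_mem hB z hq) (fun t => F (g B z t)) fun t j hj => by
      rw [g_fl hB]; exact hF _ j hj
    simpa only [Fintype.card_fin] using this
  have h2 : ∀ t : Fin m → Bool, ∑ z, ((F (g B z t)).card : ℝ) = ∑ x, ((F x).card : ℝ) := fun t =>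
    Fintype.sum_bijective (fun z => g B z t)
      (Function.Involutive.bijective fun z => g_g B t z) _ _ fun _ => rfl
  have h3 := sum_le_sum fun z (_ : z ∈ univ) => h1 z
  rw [sum_comm] at h3
  simp only [h2, sum_const, card_univ, Fintype.card_fun, Fintype.card_bool, Fintype.card_fin,
    nsmul_eq_mul, Nat.cast_pow, Nat.cast_ofNat] at h3
  have h4 : (0 : ℝ) < 2 ^ m := by positivity
  refine le_of_mul_le_mul_left ?_ h4
  linarith

end Pool.Agent.P.MP_7ffab6_lc.GLC
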