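import Pool.Agent.P.MP_7ffab6_lc.GLC.Iface

/-! Step CNT. -/

set_option autoImplicit false
set_option linter.unusedSectionVars false

namespace Pool.Agent.P.MP_7ffab6_lc.GLC

open Finset

namespace CNTx

variable {ι : Type} [Fintype ι] [DecidableEq ι]

lemma point (x y : ι → Bool) (c : ℝ) (hc : 0 ≤ c) :
    2 * c - ∑ i, (if y i = x i then 0 else c) ≤
      (if y = x then 2 * c else 0) + ∑ i, (if y = fl x i then c else 0) := by
  have hA : 0 ≤ ∑ i, (if y = fl x i then c else 0) :=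
    sum_nonneg fun i _ => by split_ifs <;> simp [hc]
  have hB : 0 ≤ ∑ i, (if y i = x i then (0 : ℝ) else c) :=
    sum_nonneg fun i _ => by split_ifs <;> simp [hc]
  by_cases h0 : y = x
  · rw [if_pos h0]; linarith
  rw [if_neg h0]
  obtain ⟨i, hi⟩ : ∃ i, y i ≠ x i := by
    by_contra hne
    push Not at hne
    exact h0 (funext hne)
  by_cases h1 : ∃ j, j ≠ i ∧ y j ≠ x j
  · obtain ⟨j, hji, hj⟩ := h1
    have h2 : ∑ k ∈ ({i, j} : Finset ι), (if y k = x k then (0 : ℝ) else c) ≤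
        ∑ k, (if y k = x k then (0 : ℝ) else c) :=
      sum_le_sum_of_subset_of_nonneg (subset_univ _) fun k _ _ => by split_ifs <;> simp [hc]
    rw [sum_pair hji.symm, if_neg hi, if_neg hj] at h2
    linarith
  · push Not at h1
    have hy : y = fl x i := by
      funext k
      by_cases hk : k = i
      · subst hk
        rw [fl_self]
        cases h3 : y k <;> cases h4 : x k <;> simp_all
      · rw [fl_ne x hk]; exact h1 k hk
    have h2 : c ≤ ∑ k, (if y = fl x k then c else 0) := by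
      have := single_le_sum (f := fun k => if y = fl x k then c else 0)
        (fun k _ => by split_ifs <;> simp [hc]) (mem_univ i)
      simpa only [if_pos hy] using this
    have h3 : c ≤ ∑ k, (if y k = x k then (0 : ℝ) else c) := by
      have := single_le_sum (f := fun k => if y k = x k then (0 : ℝ) else c)
        (fun k _ => by split_ifs <;> simp [hc]) (mem_univ i)
      simpa only [if_neg hi] using this
    linarith

lemma rowb (m : (ι → Bool) → ℝ) (hm : ∀ y, 0 ≤ m y) (x : ι → Bool)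
    (hr : ∀ i, ∑ y, (if y i = x i then 0 else m y) ≤ 1) :
    2 * ∑ y, m y - (Fintype.card ι : ℝ) ≤ 2 * m x + ∑ i, m (fl x i) := by
  have h1 : ∑ y, (2 * m y - ∑ i, (if y i = x i then 0 else m y)) ≤
      ∑ y, ((if y = x then 2 * m y else 0) + ∑ i, (if y = fl x i then m y else 0)) :=
    sum_le_sum fun y _ => point x y (m y) (hm y)
  rw [sum_sub_distrib, sum_add_distrib, ← mul_sum, sum_comm, sum_ite_eq' univ x,
    if_pos (mem_univ x), sum_comm (f := fun y i => if y = fl x i then m y else 0)] at h1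
  have h2 : ∑ i, ∑ y, (if y = fl x i then m y else 0) = ∑ i, m (fl x i) :=
    sum_congr rfl fun i _ => by rw [sum_ite_eq' univ (fl x i), if_pos (mem_univ _)]
  have h3 : ∑ i : ι, ∑ y, (if y i = x i then 0 else m y) ≤ ∑ _i : ι, (1 : ℝ) :=
    sum_le_sum fun i _ => hr i
  rw [sum_const, card_univ, nsmul_eq_mul, mul_one] at h3
  rw [h2] at h1
  linarith

lemma one (m : (ι → Bool) → ℝ) (hm : ∀ y, 0 ≤ m y) (x : ι → Bool) (i : ι)
    (hr : ∑ y, (if y i = x i then 0 else m y) ≤ 1) : m (fl x i) ≤ 1 := by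
  have := single_le_sum (f := fun y : ι → Bool => if y i = x i then (0 : ℝ) else m y)
    (fun y _ => by split_ifs <;> simp [hm]) (mem_univ (fl x i))
  have hne : ¬ (fl x i i = x i) := by
    rw [fl_self]; cases x i <;> simp
  simp only [if_neg hne] at this
  linarith

lemma low (M : (ι → Bool) → ℝ) (h : (ι → Bool) → ℝ) (x : ι → Bool) (F : Finset ι)
    (h1 : h x ^ 2 = 1) (h2 : ∀ i ∈ F, h (fl x i) = h x) :
    4 * M x ^ 2 + ∑ i ∈ F, 4 * M (fl x i) ^ 2 ≤ ∑ y, M y ^ 2 * (h x + h y) ^ 2 := by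
  have hx : x ∉ F.image (fl x) := by
    intro hx
    obtain ⟨i, _, e⟩ := mem_image.1 hx
    exact fl_ne_self x i e
  have h3 : ∑ y ∈ insert x (F.image (fl x)), M y ^ 2 * (h x + h y) ^ 2 ≤
      ∑ y, M y ^ 2 * (h x + h y) ^ 2 :=
    sum_le_sum_of_subset_of_nonneg (subset_univ _) fun y _ _ => by positivity
  rw [sum_insert hx, sum_image fun i _ j _ e => fl_inj x e] at h3
  have e4 : (h x + h x) ^ 2 = 4 := by nlinarith
  have h4 : ∑ i ∈ F, M (fl x i) ^ 2 * (h x + h (fl x i)) ^ 2 = ∑ i ∈ F, 4 * M (fl x i) ^ 2 :=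
    sum_congr rfl fun i hi => by rw [h2 i hi, e4]; ring
  rw [h4, e4] at h3
  linarith

end CNTx

theorem p_CNT :
    S_CNT := by
  intro ι _ _ M h F hh hF htot hrow
  have hm : ∀ x y, 0 ≤ 4 * M y x ^ 2 := fun x y => by positivity
  have hx : ∀ x, 2 * ∑ y, 4 * M y x ^ 2 - 2 * (Fintype.card ι : ℝ) + ((F x).card : ℝ) ≤
      2 * ∑ y, M y x ^ 2 * (h x + h y) ^ 2 := by
    intro x
    have a1 := CNTx.rowb (fun y => 4 * M y x ^ 2) (hm x) x (hrow x)
    have a2 := CNTx.low (fun y => M y x) h x (F x) (hh x) (hF x)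
    have a3 : ∑ i ∈ F x, (1 - 4 * M (fl x i) x ^ 2) ≤ ∑ i, (1 - 4 * M (fl x i) x ^ 2) :=
      sum_le_sum_of_subset_of_nonneg (subset_univ _) fun i _ _ => by
        have := CNTx.one (fun y => 4 * M y x ^ 2) (hm x) x i (hrow x i)
        linarith
    rw [sum_sub_distrib, sum_sub_distrib, sum_const, sum_const, card_univ, nsmul_eq_mul,
      nsmul_eq_mul, mul_one, mul_one] at a3
    have a4 : 0 ≤ ∑ i ∈ F x, 4 * M (fl x i) x ^ 2 := sum_nonneg fun i _ => hm x _
    linarith
  have hs := sum_le_sum fun x (_ : x ∈ (univ : Finset (ι → Bool))) => hx x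
  rw [sum_add_distrib, sum_sub_distrib, ← mul_sum, ← mul_sum, ← mul_sum, sum_const, card_univ,
    Fintype.card_fun, Fintype.card_bool, nsmul_eq_mul] at hs
  have e : ∑ x, ∑ y, 4 * M y x ^ 2 = 4 * ∑ x, ∑ y, M y x ^ 2 := by
    rw [mul_sum]; exact sum_congr rfl fun x _ => by rw [mul_sum]
  rw [e, htot] at hs
  push_cast at hs
  linarith

end Pool.Agent.P.MP_7ffab6_lc.GLC
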