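import Pool.Agent.P.MP_7ffab6_lc.GLC.Iface

/-! Step COMM. -/

set_option autoImplicit false
set_option linter.unusedSectionVars false

namespace Pool.Agent.P.MP_7ffab6_lc.GLC

open Finset

namespace COMMx

open Real

theorem near {a b : ℕ} (h1 : a ≤ b + 1) (h2 : b ≤ a + 1) :
    (a : ℝ) - b = sin (a * (π / 2)) * cos (b * (π / 2)) - cos (a * (π / 2)) * sin (b * (π / 2)) := by
  rw [← sin_sub, ← sub_mul]
  rcases (by omega : a = b ∨ a = b + 1 ∨ b = a + 1) with rfl | rfl | rfl
  · simp
  · push_cast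
    rw [add_sub_cancel_left, one_mul, sin_pi_div_two]
  · push_cast
    rw [show (a : ℝ) - (a + 1) = -1 by ring, neg_mul, one_mul, sin_neg, sin_pi_div_two]

theorem cs (t P Q : ℝ) : (sin t * P - cos t * Q) ^ 2 ≤ P ^ 2 + Q ^ 2 := by
  have h := sin_sq_add_cos_sq t
  have e : P ^ 2 + Q ^ 2 = (sin t * P - cos t * Q) ^ 2 + (cos t * P + sin t * Q) ^ 2 := by
    linear_combination (-(P ^ 2 + Q ^ 2)) * h
  rw [e]
  exact le_add_of_nonneg_right (sq_nonneg _)

end COMMx

theorem p_COMM (hCONJ : S_CONJ) (hISO : S_ISO) :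
    S_COMM := by
  intro ι _ _ U hU i h0 x
  obtain ⟨i1, i2⟩ := hISO ι U hU
  have e1 : ∀ y : ι → Bool, (if y i = x i then 0 else 4 * Mx U y x ^ 2) =
      (∑ S, U y S * ∑ T, (lv S + -1 * lv T) * tl U (fun x => sg (x i)) S T * U x T) ^ 2 := by
    intro y
    rw [← hCONJ ι U hU (fun x => sg (x i)) (-1) x y]
    cases hx : x i <;> cases hy : y i <;> simp [sg] <;> ring
  have e2 : ∀ S : Finset ι,
      ∑ T, (lv S + -1 * lv T) * tl U (fun x => sg (x i)) S T * U x T =
      Real.sin (S.card * (Real.pi / 2)) *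
        (∑ T, tl U (fun x => sg (x i)) S T * (Real.cos (T.card * (Real.pi / 2)) * U x T)) -
      Real.cos (S.card * (Real.pi / 2)) *
        ∑ T, tl U (fun x => sg (x i)) S T * (Real.sin (T.card * (Real.pi / 2)) * U x T) := by
    intro S
    rw [mul_sum, mul_sum, ← sum_sub_distrib]
    refine sum_congr rfl fun T _ => ?_
    by_cases a : S.card + 1 < T.card
    · rw [h0 S T a]
      ring
    by_cases b : T.card + 1 < S.card
    · rw [tl_comm, h0 T S b]
      ring
    have c := COMMx.near (a := S.card) (b := T.card) (by omega) (by omega)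
    have d : lv S + -1 * lv T = (S.card : ℝ) - T.card := by
      unfold lv
      ring
    rw [d, c]
    ring
  have g2 := i2 (fun x => sg (x i)) fun x => sg_sq _
  simp only [e1]
  rw [i1]
  simp only [e2]
  refine (sum_le_sum fun S _ => COMMx.cs _ _ _).trans ?_
  rw [sum_add_distrib, g2, g2, ← sum_add_distrib]
  have r := hU.row x x
  rw [if_pos rfl] at r
  refine le_of_eq (Eq.trans (sum_congr rfl fun T _ => ?_) r)
  linear_combination (U x T ^ 2) * Real.sin_sq_add_cos_sq (T.card * (Real.pi / 2))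

end Pool.Agent.P.MP_7ffab6_lc.GLC
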