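import Pool.Agent.P.MP_7ffab6_lc.GLC.Iface

/-! Step CONJ. -/

set_option autoImplicit false
set_option linter.unusedSectionVars false

namespace Pool.Agent.P.MP_7ffab6_lc.GLC

open Finset

namespace CONJx

lemma key {ι : Type} [Fintype ι] [DecidableEq ι] {U : (ι → Bool) → Finset ι → ℝ} (hU : Orth U)
    (g : (ι → Bool) → ℝ) (S : Finset ι) (x : ι → Bool) :
    ∑ T, tl U g S T * U x T = U x S * g x := by
  have h : ∀ T, tl U g S T * U x T = ∑ z, U z S * g z * (U z T * U x T) := fun T => by
    rw [tl, sum_mul]
    exact sum_congr rfl fun z _ => by ring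
  simp only [h]
  rw [sum_comm]
  simp only [← mul_sum, hU.row, mul_ite, mul_one, mul_zero, sum_ite_eq', mem_univ, if_true]

end CONJx

theorem p_CONJ :
    S_CONJ := by
  intro ι _ _ U hU g e x y
  have h1 : ∀ S, U y S * ∑ T, (lv S + e * lv T) * tl U g S T * U x T
      = U y S * lv S * U x S * g x + ∑ T, e * (lv T * U x T) * (tl U g T S * U y S) := fun S => by
    have : ∑ T, (lv S + e * lv T) * tl U g S T * U x T
        = lv S * ∑ T, tl U g S T * U x T + ∑ T, e * lv T * tl U g S T * U x T := by
      rw [mul_sum, ← sum_add_distrib]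
      exact sum_congr rfl fun T _ => by ring
    rw [this, CONJx.key hU, mul_add, mul_sum]
    congr 1
    · ring
    · exact sum_congr rfl fun T _ => by rw [tl_comm U g T S]; ring
  simp only [h1]
  rw [sum_add_distrib, sum_comm]
  simp only [← mul_sum, CONJx.key hU]
  rw [Mx, mul_add, sum_mul, sum_mul]
  congr 1
  exact sum_congr rfl fun T _ => by ring

end Pool.Agent.P.MP_7ffab6_lc.GLC
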