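import Pool.Agent.P.MP_7ffab6_lc.GLC.Iface

/-! Step CORE. -/

set_option autoImplicit false
set_option linter.unusedSectionVars false

namespace Pool.Agent.P.MP_7ffab6_lc.GLC

open Finset

theorem p_CORE (hGS : S_GS) (hISO : S_ISO) (hVAR : S_VAR) (hCPL : S_CPL) (hCOMM : S_COMM) (hFRO : S_FRO) (hCNT : S_CNT) :
    S_CORE := by
  intro ι _ _ D q hq hq0 F hF
  have hw : ∀ x, 0 < √|q x| := fun x => Real.sqrt_pos.2 (abs_pos.2 (hq0 x))
  obtain ⟨U, hU, hUa, hUo⟩ := hGS ι (fun x => √|q x|) hw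
  -- the sign of `q`
  obtain ⟨σ, hσ⟩ : ∃ σ : (ι → Bool) → ℝ, ∀ x, σ x = if 0 < q x then 1 else -1 := ⟨_, fun _ => rfl⟩
  have hσq : ∀ x, |q x| * σ x = q x := fun x => by
    rw [hσ]
    split_ifs with h
    · rw [abs_of_pos h, mul_one]
    · rw [abs_of_nonpos (not_lt.1 h)]; ring
  have hσ2 : ∀ x, σ x ^ 2 = 1 := fun x => by rw [hσ]; split_ifs <;> norm_num
  obtain ⟨h, hh⟩ : ∃ h : (ι → Bool) → ℝ, ∀ x, h x = σ x * chi univ x := ⟨_, fun _ => rfl⟩
  have hh2 : ∀ x, h x ^ 2 = 1 := fun x => by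
    rw [hh, mul_pow, hσ2, sq, chi_mul_self, one_mul]
  have hfl : ∀ x, ∀ i ∈ F x, h (fl x i) = h x := fun x i hi => by
    have := hF x i hi
    rw [hh, hh, chi_fl_mem (mem_univ i), hσ, hσ]
    by_cases h1 : 0 < q x <;> by_cases h2 : 0 < q (fl x i) <;> simp [h1, h2] at this ⊢
  have hsupp : ∀ S T : Finset ι, S.card + T.card + D < Fintype.card ι → tl U h S T = 0 := by
    intro S T hST
    obtain ⟨a, ha, hSa⟩ := hUa S
    obtain ⟨b, hb, hTb⟩ := hUa T
    rw [← sum_mul_parity hST (mul_mem (mul_mem ha hb) hq)]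
    refine sum_congr rfl fun x _ => ?_
    have e : √|q x| * √|q x| = |q x| := Real.mul_self_sqrt (abs_nonneg _)
    rw [hSa, hTb, hh]
    simp only [Pi.mul_apply]
    linear_combination (a x * b x * σ x * chi univ x) * e + (a x * b x * chi univ x) * hσq x
  have hband : ∀ (i : ι) (S T : Finset ι), S.card + 1 < T.card →
      tl U (fun x => sg (x i)) S T = 0 := by
    intro i S T hST
    obtain ⟨a, ha, hSa⟩ := hUa S
    rw [← hUo T _ hST _ (mul_mem ha (sg_mem i))]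
    refine sum_congr rfl fun x _ => ?_
    rw [hSa]
    simp only [Pi.mul_apply]
    ring
  have hcol : ∀ T : Finset ι, ∑ S, tl U h S T ^ 2 = 1 := fun T => by
    have := (hISO ι U hU).2 h hh2 fun T' => if T' = T then 1 else 0
    simpa using this
  have hrow : ∀ S : Finset ι, ∑ T, tl U h S T ^ 2 = 1 := fun S => by
    simp only [tl_comm U h S]; exact hcol S
  have hβ := hCPL ι D (fun S T => tl U h S T ^ 2) (fun _ _ => sq_nonneg _) hrow hcol
    fun S T hST => by rw [hsupp S T hST]; norm_num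
  have hc := hCNT ι (Mx U) h F hh2 hfl ((hFRO ι U hU).1.trans (hVAR ι).1)
    fun x i => hCOMM ι U hU i (hband i) x
  rw [(hFRO ι U hU).2 h] at hc
  linarith

end Pool.Agent.P.MP_7ffab6_lc.GLC
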