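import Pool.Agent.P.MP_7ffab6_lc.GLC.Iface

/-! Step CPL. -/

set_option autoImplicit false
set_option linter.unusedSectionVars false

namespace Pool.Agent.P.MP_7ffab6_lc.GLC

open Finset

namespace CPLx

lemma pt (a c D : ℝ) (hD : 0 ≤ D) (h : -D ≤ a + c) :
    (a + c) ^ 2 ≤ 2 * (a * |a|) + 2 * (c * |c|) + 3 * D * |a| + 3 * D * |c| := by
  rcases le_total 0 a with ha | ha <;> rcases le_total 0 c with hc | hc
  · rw [abs_of_nonneg ha, abs_of_nonneg hc]
    nlinarith [sq_nonneg (a - c), mul_nonneg hD ha, mul_nonneg hD hc]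
  · rw [abs_of_nonneg ha, abs_of_nonpos hc]
    rcases le_total 0 (a + c) with hs | hs
    · nlinarith [mul_nonneg hs ha, mul_nonneg hs (neg_nonneg.2 hc), mul_nonneg hD ha,
        mul_nonneg hD (neg_nonneg.2 hc)]
    · nlinarith [mul_nonneg (neg_nonneg.2 hs) ha,
        mul_nonneg (show 0 ≤ a + c + D by linarith) (show 0 ≤ a - c by linarith)]
  · rw [abs_of_nonpos ha, abs_of_nonneg hc]
    rcases le_total 0 (a + c) with hs | hs
    · nlinarith [mul_nonneg hs hc, mul_nonneg hs (neg_nonneg.2 ha), mul_nonneg hD hc,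
        mul_nonneg hD (neg_nonneg.2 ha)]
    · nlinarith [mul_nonneg (neg_nonneg.2 hs) hc,
        mul_nonneg (show 0 ≤ a + c + D by linarith) (show 0 ≤ c - a by linarith)]
  · rw [abs_of_nonpos ha, abs_of_nonpos hc]
    nlinarith [mul_nonneg (neg_nonneg.2 ha) (neg_nonneg.2 hc),
      mul_nonneg (show 0 ≤ a + c + D by linarith) (show 0 ≤ -a - c by linarith)]

end CPLx

theorem p_CPL (hVAR : S_VAR) :
    S_CPL := by
  intro ι _ _ D μ h0 h1 h2 h3
  obtain ⟨-, v2, v3⟩ := hVAR ι
  let F : Finset ι → ℝ := fun S => 2 * (lv S * |lv S|) + 3 * D * |lv S|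
  have key : ∀ S T : Finset ι, (lv S + lv T) ^ 2 * μ S T ≤ F S * μ S T + F T * μ S T := by
    intro S T
    by_cases h : S.card + T.card + D < Fintype.card ι
    · rw [h3 S T h]; simp
    · have h4 : (Fintype.card ι : ℝ) ≤ S.card + T.card + D := by exact_mod_cast not_lt.1 h
      have h5 := CPLx.pt (lv S) (lv T) D (Nat.cast_nonneg D) (by unfold lv; linarith)
      rw [← add_mul]
      refine mul_le_mul_of_nonneg_right ?_ (h0 S T)
      simp only [F]
      linarith
  have e1 : ∑ S, ∑ T, F S * μ S T = ∑ S, F S := by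
    simp only [← mul_sum, h1, mul_one]
  have e2 : ∑ S, ∑ T, F T * μ S T = ∑ S, F S := by
    rw [sum_comm]
    simp only [← mul_sum, h2, mul_one]
  have e3 : ∑ S, F S = 3 * D * ∑ S : Finset ι, |lv S| := by
    simp only [F, sum_add_distrib, ← mul_sum, v2]
    ring
  have e4 := mul_le_mul_of_nonneg_left v3 (show (0 : ℝ) ≤ 3 * D by positivity)
  calc _ ≤ ∑ S, ∑ T, (F S * μ S T + F T * μ S T) :=
        sum_le_sum fun S _ => sum_le_sum fun T _ => key S T
    _ = ∑ S, F S + ∑ S, F S := by simp only [sum_add_distrib, e1, e2]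
    _ ≤ _ := by rw [e3]; linarith

end Pool.Agent.P.MP_7ffab6_lc.GLC
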