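import Pool.Agent.P.MP_7ffab6_lc.GLC.Iface

/-! Step FRO. -/

set_option autoImplicit false
set_option linter.unusedSectionVars false

namespace Pool.Agent.P.MP_7ffab6_lc.GLC

open Finset

theorem p_FRO (hCONJ : S_CONJ) (hISO : S_ISO) :
    S_FRO := by
  intro ι _ _ U hU
  obtain ⟨h1, -⟩ := hISO ι U hU
  refine ⟨?_, fun g => ?_⟩
  · have e : ∀ x, ∑ y, Mx U y x ^ 2 = ∑ S, (lv S * U x S) ^ 2 := fun x => by
      rw [← h1 fun S => lv S * U x S]
      refine sum_congr rfl fun y _ => ?_
      rw [Mx]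
      exact congrArg (· ^ 2) (sum_congr rfl fun S _ => by ring)
    simp only [e]
    rw [sum_comm]
    refine sum_congr rfl fun S _ => ?_
    have c := hU.col S S
    rw [if_pos rfl] at c
    calc ∑ x, (lv S * U x S) ^ 2 = lv S ^ 2 * ∑ x, U x S * U x S := by
          rw [mul_sum]; exact sum_congr rfl fun x _ => by ring
      _ = lv S ^ 2 := by rw [c, mul_one]
  · have e : ∀ x, ∑ y, Mx U y x ^ 2 * (g x + g y) ^ 2 =
        ∑ S, (∑ T, U x T * ((lv S + lv T) * tl U g S T)) ^ 2 := fun x => by
      rw [← h1 fun S => ∑ T, U x T * ((lv S + lv T) * tl U g S T)]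
      refine sum_congr rfl fun y _ => ?_
      have c := hCONJ ι U hU g 1 x y
      simp only [one_mul] at c
      rw [← mul_pow, c]
      refine congrArg (· ^ 2) (sum_congr rfl fun S _ => ?_)
      exact congrArg (U y S * ·) (sum_congr rfl fun T _ => by ring)
    simp only [e]
    rw [sum_comm]
    refine sum_congr rfl fun S _ => ?_
    rw [h1 fun T => (lv S + lv T) * tl U g S T]
    exact sum_congr rfl fun T _ => by ring

end Pool.Agent.P.MP_7ffab6_lc.GLC
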