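import Pool.Agent.P.MP_7ffab6_lc.GLC.Iface

/-! Step ISO. -/

set_option autoImplicit false
set_option linter.unusedSectionVars false

namespace Pool.Agent.P.MP_7ffab6_lc.GLC

open Finset

namespace ISOx

theorem iso {α β : Type} [Fintype α] [Fintype β] [DecidableEq β] (U : α → β → ℝ)
    (h : ∀ S T, ∑ x, U x S * U x T = if S = T then 1 else 0) (v : β → ℝ) :
    ∑ y, (∑ S, U y S * v S) ^ 2 = ∑ S, v S ^ 2 := by
  have e1 : ∀ y, (∑ S, U y S * v S) ^ 2 = ∑ S, ∑ T, v S * v T * (U y S * U y T) := by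
    intro y
    rw [sq, sum_mul_sum]
    exact sum_congr rfl fun S _ => sum_congr rfl fun T _ => by ring
  simp only [e1]
  rw [sum_comm]
  refine sum_congr rfl fun S _ => ?_
  rw [sum_comm]
  simp only [← mul_sum, h, mul_ite, mul_one, mul_zero, sum_ite_eq, mem_univ, if_true]
  ring

end ISOx

theorem p_ISO :
    S_ISO := by
  intro ι _ _ U hU
  refine ⟨ISOx.iso U hU.col, fun g hg v => ?_⟩
  have e : ∀ S, ∑ T, tl U g S T * v T = ∑ x, U x S * (g x * ∑ T, U x T * v T) := by
    intro S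
    simp only [tl, sum_mul, mul_sum]
    rw [sum_comm]
    exact sum_congr rfl fun x _ => sum_congr rfl fun T _ => by ring
  simp only [e]
  rw [ISOx.iso (fun S x => U x S) hU.row, ← ISOx.iso U hU.col v]
  exact sum_congr rfl fun x _ => by rw [mul_pow, hg, one_mul]

end Pool.Agent.P.MP_7ffab6_lc.GLC
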