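import Pool.Agent.P.MP_7ffab6_lc.GLC.Iface

/-! Step POLY. -/

set_option autoImplicit false
set_option linter.unusedSectionVars false

namespace Pool.Agent.P.MP_7ffab6_lc.GLC

open Finset

namespace POLYx

variable {ι : Type} [Fintype ι] [DecidableEq ι]

lemma bit_mem (e : ι) : (fun x : ι → Bool => if x e = true then (1 : ℝ) else 0) ∈ Pd ι 1 := by
  have h : (fun x : ι → Bool => if x e = true then (1 : ℝ) else 0) =
      (fun _ => 1 / 2) + (-1 / 2 : ℝ) • fun x : ι → Bool => sg (x e) := by
    funext x
    cases h : x e <;> simp [sg, h] <;> norm_num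
  rw [h]
  exact add_mem (const_mem _ _) (Submodule.smul_mem _ _ (sg_mem e))

lemma pow_mem (e : ι) (n : ℕ) :
    (fun x : ι → Bool => (if x e = true then (1 : ℝ) else 0) ^ n) ∈ Pd ι n := by
  induction n with
  | zero => simpa using const_mem (ι := ι) 1 0
  | succ n ih =>
    simp only [pow_succ]
    exact mul_mem ih (bit_mem e)

end POLYx

theorem p_POLY :
    S_POLY := by
  intro ι _ _ D p hp
  have h : (fun x : ι → Bool => MvPolynomial.eval (fun e => if x e = true then (1 : ℝ) else 0) p) =
      ∑ d ∈ p.support, p.coeff d • fun x : ι → Bool =>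
        ∏ e ∈ d.support, (if x e = true then (1 : ℝ) else 0) ^ d e := by
    funext x
    rw [MvPolynomial.eval_eq, Finset.sum_apply]
    rfl
  rw [h]
  exact Submodule.sum_mem _ fun d hd => Submodule.smul_mem _ _
    (Pd_mono ((MvPolynomial.le_totalDegree hd).trans hp)
      (prod_mem d.support _ d fun e _ => POLYx.pow_mem e (d e)))

end Pool.Agent.P.MP_7ffab6_lc.GLC
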