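import Pool.Agent.P.MP_7ffab6_lc.GLC.Iface

/-! Step VAR. -/

set_option autoImplicit false
set_option linter.unusedSectionVars false

namespace Pool.Agent.P.MP_7ffab6_lc.GLC

open Finset

namespace VARx

theorem mom {ι : Type} [DecidableEq ι] (A : Finset ι) (c : ℝ) :
    ∑ S ∈ A.powerset, ((S.card : ℝ) - c) ^ 2 =
      2 ^ A.card * (((A.card : ℝ) / 2 - c) ^ 2 + A.card / 4) := by
  induction A using Finset.induction_on generalizing c with
  | empty => simp
  | insert x A hx ih =>
    have e : ∑ S ∈ A.powerset, (((insert x S).card : ℝ) - c) ^ 2 =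
        ∑ S ∈ A.powerset, ((S.card : ℝ) - (c - 1)) ^ 2 := by
      refine sum_congr rfl fun S hS => ?_
      rw [card_insert_of_notMem fun h => hx (mem_powerset.1 hS h)]
      push_cast
      ring
    rw [sum_powerset_insert hx, e, ih, ih, card_insert_of_notMem hx]
    push_cast
    ring

end VARx

theorem p_VAR :
    S_VAR := by
  intro ι _ _
  have h1 : ∑ S : Finset ι, lv S ^ 2 = (Fintype.card ι : ℝ) * 2 ^ Fintype.card ι / 4 := by
    have := VARx.mom (univ : Finset ι) ((Fintype.card ι : ℝ) / 2)
    rw [powerset_univ, card_univ] at this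
    simp only [lv]
    rw [this]
    ring
  refine ⟨h1, ?_, ?_⟩
  · have hc : ∀ S : Finset ι, lv Sᶜ = -lv S := fun S => by
      simp only [lv, card_compl, Nat.cast_sub (card_le_univ S)]
      ring
    have e : ∑ S : Finset ι, lv S * |lv S| = ∑ S : Finset ι, lv Sᶜ * |lv Sᶜ| :=
      (Equiv.sum_comp (Function.Involutive.toPerm (compl : Finset ι → Finset ι) compl_compl)
        (fun S => lv S * |lv S|)).symm
    simp only [hc, abs_neg, neg_mul, sum_neg_distrib] at e
    linarith
  · have h2 := sq_sum_le_card_mul_sum_sq (s := (univ : Finset (Finset ι))) (f := fun S => |lv S|)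
    simp only [sq_abs, h1, card_univ, Fintype.card_finset] at h2
    refine (sq_le_sq₀ (sum_nonneg fun _ _ => abs_nonneg _) (by positivity)).1 (h2.trans_eq ?_)
    rw [div_pow, mul_pow, Real.sq_sqrt (Nat.cast_nonneg _)]
    push_cast
    ring

end Pool.Agent.P.MP_7ffab6_lc.GLC
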