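import Pool.Agent.P.MP_7ffab6_lc.GLC.TGS
import Pool.Agent.P.MP_7ffab6_lc.GLC.TCONJ
import Pool.Agent.P.MP_7ffab6_lc.GLC.TISO
import Pool.Agent.P.MP_7ffab6_lc.GLC.TVAR
import Pool.Agent.P.MP_7ffab6_lc.GLC.TCPL
import Pool.Agent.P.MP_7ffab6_lc.GLC.TCOMM
import Pool.Agent.P.MP_7ffab6_lc.GLC.TFRO
import Pool.Agent.P.MP_7ffab6_lc.GLC.TCNT
import Pool.Agent.P.MP_7ffab6_lc.GLC.TCORE
import Pool.Agent.P.MP_7ffab6_lc.GLC.TAS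
import Pool.Agent.P.MP_7ffab6_lc.GLC.TPOLY
import Pool.Agent.P.MP_7ffab6_lc.GLC.TBLK

/-! Assembly. -/

set_option autoImplicit false

namespace Pool.Agent.P.MP_7ffab6_lc.GLC

theorem q_CORE : S_CORE :=
  p_CORE p_GS p_ISO p_VAR (p_CPL p_VAR) (p_COMM p_CONJ p_ISO) (p_FRO p_CONJ p_ISO) p_CNT

theorem q_AS : S_AS := p_AS q_CORE

theorem q_BLK : S_BLK := p_BLK q_AS

end Pool.Agent.P.MP_7ffab6_lc.GLC
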