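import Mathlib

/-! Functions of bounded degree on the cube, level operators of a weighted flag. -/

set_option autoImplicit false
set_option linter.unusedSectionVars false

namespace Pool.Agent.P.MP_7ffab6_lc.GLC

open Finset

variable {ι : Type} [Fintype ι] [DecidableEq ι]

/-- the sign of a bit -/
def sg (b : Bool) : ℝ := if b = true then -1 else 1

/-- the character of a set of coordinates -/
def chi (S : Finset ι) (x : ι → Bool) : ℝ := ∏ i ∈ S, sg (x i)

/-- functions of degree at most `d` -/
def Pd (ι : Type) [Fintype ι] [DecidableEq ι] (d : ℕ) : Submodule ℝ ((ι → Bool) → ℝ) :=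
  Submodule.span ℝ {g | ∃ S : Finset ι, S.card ≤ d ∧ g = chi S}

/-- flip one bit -/
def fl (x : ι → Bool) (i : ι) : ι → Bool := Function.update x i (!x i)

/-- matrix of the multiplication by `g` in the basis `U` -/
def tl (U : (ι → Bool) → Finset ι → ℝ) (g : (ι → Bool) → ℝ) (S T : Finset ι) : ℝ :=
  ∑ x, U x S * g x * U x T

/-- centred level -/
noncomputable def lv (S : Finset ι) : ℝ := (S.card : ℝ) - (Fintype.card ι : ℝ) / 2

/-- kernel of the centred level operator -/
noncomputable def Mx (U : (ι → Bool) → Finset ι → ℝ) (x y : ι → Bool) : ℝ :=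
  ∑ S, U x S * lv S * U y S

/-- `U` is an orthogonal matrix -/
structure Orth (U : (ι → Bool) → Finset ι → ℝ) : Prop where
  col : ∀ S T, ∑ x, U x S * U x T = if S = T then 1 else 0
  row : ∀ x y, ∑ S, U x S * U y S = if x = y then 1 else 0

lemma sg_mul_self (b : Bool) : sg b * sg b = 1 := by cases b <;> simp [sg]

lemma sg_sq (b : Bool) : sg b ^ 2 = 1 := by rw [sq, sg_mul_self]

lemma sg_not (b : Bool) : sg (!b) = -sg b := by cases b <;> simp [sg]

lemma fl_self (x : ι → Bool) (i : ι) : fl x i i = !x i := by simp [fl]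

lemma fl_ne (x : ι → Bool) {i j : ι} (h : j ≠ i) : fl x i j = x j := by simp [fl, h]

lemma fl_fl (x : ι → Bool) (i : ι) : fl (fl x i) i = x := by
  funext j
  by_cases h : j = i
  · subst h; simp [fl]
  · simp [fl, h]

lemma fl_ne_self (x : ι → Bool) (i : ι) : fl x i ≠ x := by
  intro h
  have := congrFun h i
  rw [fl_self] at this
  cases hx : x i <;> simp [hx] at this

lemma fl_inj (x : ι → Bool) {i j : ι} (h : fl x i = fl x j) : i = j := by
  by_contra hij
  have := congrFun h i
  rw [fl_self, fl_ne x hij] at this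
  cases hx : x i <;> simp [hx] at this

lemma chi_mul_self (S : Finset ι) (x : ι → Bool) : chi S x * chi S x = 1 := by
  rw [chi, ← prod_mul_distrib]; simp [sg_mul_self]

lemma chi_fl_mem {S : Finset ι} {i : ι} (h : i ∈ S) (x : ι → Bool) :
    chi S (fl x i) = -chi S x := by
  rw [chi, chi, ← mul_prod_erase S _ h, ← mul_prod_erase S _ h, fl_self, sg_not,
    prod_congr rfl fun j hj => by rw [fl_ne x (ne_of_mem_erase hj)]]
  ring

lemma chi_mul (S T : Finset ι) (x : ι → Bool) : chi S x * chi T x = chi (symmDiff S T) x := by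
  have h : ∀ A : Finset ι, chi A x = ∏ i, if i ∈ A then sg (x i) else 1 := fun A => by
    rw [chi, ← prod_filter]; congr 1; ext i; simp
  rw [h, h, h, ← prod_mul_distrib]
  refine prod_congr rfl fun i _ => ?_
  by_cases h1 : i ∈ S <;> by_cases h2 : i ∈ T <;> simp [h1, h2, mem_symmDiff, sg_mul_self]

lemma sum_chi {S : Finset ι} (h : S.Nonempty) : ∑ x, chi S x = 0 := by
  obtain ⟨i, hi⟩ := h
  have e : ∑ x, chi S (fl x i) = ∑ x, chi S x :=
    Fintype.sum_bijective (fun x => fl x i)
      (Function.Involutive.bijective fun x => fl_fl x i) _ _ fun _ => rfl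
  simp only [chi_fl_mem hi, sum_neg_distrib] at e
  linarith

lemma sum_chi_mul {S T : Finset ι} (h : S ≠ T) : ∑ x, chi S x * chi T x = 0 := by
  simp only [chi_mul]
  exact sum_chi (nonempty_iff_ne_empty.2 fun e => h (symmDiff_eq_bot.1 e))

lemma chi_mem {S : Finset ι} {d : ℕ} (h : S.card ≤ d) : chi S ∈ Pd ι d :=
  Submodule.subset_span ⟨S, h, rfl⟩

lemma Pd_mono {a b : ℕ} (h : a ≤ b) : Pd ι a ≤ Pd ι b :=
  Submodule.span_mono fun _ ⟨S, hS, e⟩ => ⟨S, hS.trans h, e⟩

lemma const_mem (c : ℝ) (d : ℕ) : (fun _ => c) ∈ Pd ι d := by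
  have := (Pd ι d).smul_mem c (chi_mem (S := ∅) (d := d) (by simp))
  convert this using 1
  funext x; simp [chi]

lemma sg_mem (i : ι) : (fun x : ι → Bool => sg (x i)) ∈ Pd ι 1 := by
  have := chi_mem (S := {i}) (d := 1) (by simp)
  convert this using 1
  funext x; simp [chi]

lemma mul_mem {a b : ℕ} {f g : (ι → Bool) → ℝ} (hf : f ∈ Pd ι a) (hg : g ∈ Pd ι b) :
    f * g ∈ Pd ι (a + b) := by
  induction hf using Submodule.span_induction with
  | mem f h =>
    obtain ⟨S, hS, rfl⟩ := h
    induction hg using Submodule.span_induction with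
    | mem g h =>
      obtain ⟨T, hT, rfl⟩ := h
      have : chi S * chi T = chi (symmDiff S T) := funext fun x => chi_mul S T x
      rw [this]
      exact chi_mem ((card_le_card symmDiff_subset_union).trans
        ((card_union_le _ _).trans (add_le_add hS hT)))
    | zero => simp
    | add g k _ _ h1 h2 => rw [mul_add]; exact add_mem h1 h2
    | smul c g _ h1 => rw [mul_smul_comm]; exact Submodule.smul_mem _ _ h1
  | zero => simp
  | add f k _ _ h1 h2 => rw [add_mul]; exact add_mem h1 h2
  | smul c f _ h1 => rw [smul_mul_assoc]; exact Submodule.smul_mem _ _ h1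

lemma prod_mem {κ : Type} (s : Finset κ) (f : κ → (ι → Bool) → ℝ) (d : κ → ℕ)
    (h : ∀ k ∈ s, f k ∈ Pd ι (d k)) : (fun x => ∏ k ∈ s, f k x) ∈ Pd ι (∑ k ∈ s, d k) := by
  classical
  induction s using Finset.induction_on with
  | empty => simpa using const_mem (ι := ι) 1 0
  | insert k s hk ih =>
    simp only [prod_insert hk, sum_insert hk]
    exact mul_mem (h k (mem_insert_self _ _)) (ih fun j hj => h j (mem_insert_of_mem hj))

lemma sum_mul_parity {d : ℕ} (hd : d < Fintype.card ι) {g : (ι → Bool) → ℝ} (hg : g ∈ Pd ι d) :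
    ∑ x, g x * chi univ x = 0 := by
  induction hg using Submodule.span_induction with
  | mem g h =>
    obtain ⟨S, hS, rfl⟩ := h
    refine sum_chi_mul fun e => ?_
    rw [e, card_univ] at hS
    omega
  | zero => simp
  | add g k _ _ h1 h2 => simp only [Pi.add_apply, add_mul, sum_add_distrib, h1, h2, add_zero]
  | smul c g _ h1 => simp only [Pi.smul_apply, smul_eq_mul, mul_assoc, ← mul_sum, h1, mul_zero]

lemma tl_comm (U : (ι → Bool) → Finset ι → ℝ) (g : (ι → Bool) → ℝ) (S T : Finset ι) :
    tl U g S T = tl U g T S := sum_congr rfl fun _ _ => by ring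

lemma Mx_comm (U : (ι → Bool) → Finset ι → ℝ) (x y : ι → Bool) : Mx U x y = Mx U y x :=
  sum_congr rfl fun _ _ => by ring

end Pool.Agent.P.MP_7ffab6_lc.GLC
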