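import Pool.Agent.P.MP_7ffab6_lc.GLC.Iface

/-! Step NOISE. -/

set_option autoImplicit false
set_option linter.unusedSectionVars false

namespace Pool.Agent.P.MP_7ffab6_lc.GLC

open Finset

namespace NOISEx

variable {ι : Type} [Fintype ι] [DecidableEq ι] {m : ℕ}

lemma one {ω : Option (Fin m) → ℝ} (h : ∑ o, ω o = 1) (j : Fin m) (a b : Bool) :
    ∑ o, ω o * (if (if o = some j then !a else a) = b then 1 else 0) =
      if a = b then 1 - ω (some j) else ω (some j) := by
  have e : ∀ o, ω o * (if (if o = some j then !a else a) = b then 1 else 0) =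
      ω o * (if a = b then 1 else 0) +
        if o = some j then ω o * (if a = b then -1 else 1) else 0 := fun o => by
    by_cases h1 : o = some j <;> cases a <;> cases b <;> simp [h1]
  simp only [e, sum_add_distrib, ← sum_mul, h, sum_ite_eq', mem_univ, if_true]
  split_ifs <;> ring

lemma avg {ω : Option (Fin m) → ℝ} (h : ∑ o, ω o = 1) (j : Fin m) (x : ι → Bool)
    (G : (ι → Bool) → ℝ) :
    ∑ b : ι → Option (Fin m), (∏ e, ω (b e)) * G (fun e => if b e = some j then !x e else x e) =
      ∑ y : ι → Bool, (∏ e, if x e = y e then 1 - ω (some j) else ω (some j)) * G y := by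
  simp only [← one h j, Fintype.prod_sum, sum_mul]
  rw [sum_comm]
  refine sum_congr rfl fun b _ => ?_
  rw [sum_eq_single fun e => if b e = some j then !x e else x e]
  · simp
  · intro y _ hy
    obtain ⟨e, he⟩ := Function.ne_iff.1 hy
    rw [prod_eq_zero (mem_univ e) (by rw [if_neg he.symm, mul_zero]), zero_mul]
  · simp

end NOISEx

open NOISEx in
theorem p_NOISE (hBLK : S_BLK) :
    S_NOISE := by
  intro ι _ _ D q θ ε hq h0 h1
  rcases h0.eq_or_lt with rfl | h0
  · refine (sum_eq_zero fun x _ => sum_eq_zero fun y _ => ?_).trans_le (by positivity)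
    by_cases h : x = y
    · simp [h]
    · obtain ⟨e, he⟩ := Function.ne_iff.1 h
      rw [prod_eq_zero (mem_univ e) (by simp [he]), zero_mul]
  obtain ⟨m, h2, h3⟩ : ∃ m : ℕ, 1 ≤ m * ε ∧ m * (ε / 2) ≤ 1 := by
    refine ⟨⌈1 / ε⌉₊, (div_le_iff₀ h0).1 (Nat.le_ceil _), ?_⟩
    have h := mul_le_mul_of_nonneg_right (Nat.ceil_lt_add_one (one_div_pos.2 h0).le).le h0.le
    rw [add_mul, one_div_mul_cancel h0.ne'] at h
    linarith
  have hm : (0 : ℝ) < m := (mul_pos_iff_of_pos_right h0).1 (by linarith)
  set ω : Option (Fin m) → ℝ := fun o => o.elim (1 - m * (ε / 2)) fun _ => ε / 2 with hω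
  have h4 : ∑ o, ω o = 1 := by simp [hω, Fintype.sum_option]
  have h5 : ∀ o, 0 ≤ ω o := fun o => by cases o <;> simp only [hω, Option.elim] <;> linarith
  have h6 : ∑ b : ι → Option (Fin m), ∏ e, ω (b e) = 1 := by
    rw [← Fintype.prod_sum fun _ : ι => ω]; simp [h4]
  have h7 : ∀ b : ι → Option (Fin m), ∑ x : ι → Bool, ∑ j : Fin m,
      (if (θ ≤ q x ↔ θ ≤ q fun e => if b e = some j then !x e else x e) then (0 : ℝ) else 1) ≤
      6 * D * √(m : ℝ) * 2 ^ Fintype.card ι := fun b => by
    have h := hBLK ι D m q θ hq (fun j => univ.filter fun e => b e = some j)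
      (fun j k hjk => disjoint_filter.2 fun e _ h h' => hjk (Option.some.inj (h.symm.trans h')))
      (fun x => univ.filter fun j =>
        ¬ (θ ≤ q x ↔ θ ≤ q fun e => if b e = some j then !x e else x e))
      fun x j hj => by simpa only [mem_filter, mem_univ, true_and] using hj
    simpa only [card_filter, Nat.cast_sum, ite_not, Nat.cast_ite, Nat.cast_one, Nat.cast_zero]
      using h
  have h8 := sum_le_sum fun b (_ : b ∈ (univ : Finset (ι → Option (Fin m)))) =>
    mul_le_mul_of_nonneg_left (h7 b) (prod_nonneg fun e (_ : e ∈ univ) => h5 (b e))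
  rw [← sum_mul, h6, one_mul] at h8
  simp only [mul_sum] at h8
  rw [sum_comm] at h8
  replace h8 := (sum_congr rfl fun x _ => (sum_comm.trans (sum_congr rfl fun j _ => avg h4 j x
      fun y => if (θ ≤ q x ↔ θ ≤ q y) then (0 : ℝ) else 1)).symm).trans_le h8
  simp only [hω, Option.elim, sum_const, card_univ, Fintype.card_fin, nsmul_eq_mul,
    ← mul_sum] at h8
  have h9 : √(m : ℝ) ≤ m * √ε := by
    rw [Real.sqrt_le_left (by positivity), mul_pow, Real.sq_sqrt h0.le]
    nlinarith
  refine le_of_mul_le_mul_left (h8.trans ?_) hm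
  calc _ ≤ 6 * D * (m * √ε) * 2 ^ Fintype.card ι := by gcongr
    _ = _ := by ring

end Pool.Agent.P.MP_7ffab6_lc.GLC
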