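import Pool.Agent.P.MP_7ffab6_lc.GLC.All
import Pool.Agent.P.MP_7ffab6_lc.GLC.TNOISE

/-! The noise form (a corollary of the block form; not a hand-in). -/

set_option autoImplicit false

namespace Pool.Agent.P.MP_7ffab6_lc.GLC

theorem q_NOISE : S_NOISE := p_NOISE q_BLK

end Pool.Agent.P.MP_7ffab6_lc.GLC
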