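import Pool.Agent.P.MP_7ffab6_lc.GLC.Base

/-! Statements of the steps. -/

set_option autoImplicit false

namespace Pool.Agent.P.MP_7ffab6_lc.GLC

open Finset

-- deps:
def S_GS : Prop := ∀ (ι : Type) [Fintype ι] [DecidableEq ι] (w : (ι → Bool) → ℝ),
  (∀ x, 0 < w x) → ∃ U : (ι → Bool) → Finset ι → ℝ, Orth U ∧
    (∀ S : Finset ι, ∃ a ∈ Pd ι S.card, ∀ x, U x S = w x * a x) ∧
    ∀ (T : Finset ι) (d : ℕ), d < T.card → ∀ a ∈ Pd ι d, ∑ x, w x * a x * U x T = 0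

-- deps:
def S_CONJ : Prop := ∀ (ι : Type) [Fintype ι] [DecidableEq ι]
  (U : (ι → Bool) → Finset ι → ℝ), Orth U → ∀ (g : (ι → Bool) → ℝ) (e : ℝ) (x y : ι → Bool),
    Mx U y x * (g x + e * g y) = ∑ S, U y S * ∑ T, (lv S + e * lv T) * tl U g S T * U x T

-- deps:
def S_ISO : Prop := ∀ (ι : Type) [Fintype ι] [DecidableEq ι]
  (U : (ι → Bool) → Finset ι → ℝ), Orth U →
    (∀ v : Finset ι → ℝ, ∑ y, (∑ S, U y S * v S) ^ 2 = ∑ S, v S ^ 2) ∧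
    ∀ g : (ι → Bool) → ℝ, (∀ x, g x ^ 2 = 1) → ∀ v : Finset ι → ℝ,
      ∑ S, (∑ T, tl U g S T * v T) ^ 2 = ∑ T, v T ^ 2

-- deps:
def S_VAR : Prop := ∀ (ι : Type) [Fintype ι] [DecidableEq ι],
  ∑ S : Finset ι, lv S ^ 2 = (Fintype.card ι : ℝ) * 2 ^ Fintype.card ι / 4 ∧
  ∑ S : Finset ι, lv S * |lv S| = 0 ∧
  ∑ S : Finset ι, |lv S| ≤ √(Fintype.card ι : ℝ) * 2 ^ Fintype.card ι / 2

-- deps: VAR
def S_CPL : Prop := ∀ (ι : Type) [Fintype ι] [DecidableEq ι] (D : ℕ)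
  (μ : Finset ι → Finset ι → ℝ), (∀ S T, 0 ≤ μ S T) → (∀ S, ∑ T, μ S T = 1) →
    (∀ T, ∑ S, μ S T = 1) → (∀ S T, S.card + T.card + D < Fintype.card ι → μ S T = 0) →
    ∑ S, ∑ T, (lv S + lv T) ^ 2 * μ S T ≤ 3 * D * √(Fintype.card ι : ℝ) * 2 ^ Fintype.card ι

-- deps: CONJ ISO
def S_COMM : Prop := ∀ (ι : Type) [Fintype ι] [DecidableEq ι]
  (U : (ι → Bool) → Finset ι → ℝ), Orth U → ∀ i : ι,
    (∀ S T : Finset ι, S.card + 1 < T.card → tl U (fun x => sg (x i)) S T = 0) →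
    ∀ x, ∑ y, (if y i = x i then 0 else 4 * Mx U y x ^ 2) ≤ 1

-- deps: CONJ ISO
def S_FRO : Prop := ∀ (ι : Type) [Fintype ι] [DecidableEq ι]
  (U : (ι → Bool) → Finset ι → ℝ), Orth U →
    ∑ x, ∑ y, Mx U y x ^ 2 = ∑ S : Finset ι, lv S ^ 2 ∧
    ∀ g : (ι → Bool) → ℝ, ∑ x, ∑ y, Mx U y x ^ 2 * (g x + g y) ^ 2 =
      ∑ S, ∑ T, (lv S + lv T) ^ 2 * tl U g S T ^ 2

-- deps:
def S_CNT : Prop := ∀ (ι : Type) [Fintype ι] [DecidableEq ι]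
  (M : (ι → Bool) → (ι → Bool) → ℝ) (h : (ι → Bool) → ℝ) (F : (ι → Bool) → Finset ι),
    (∀ x, h x ^ 2 = 1) → (∀ x, ∀ i ∈ F x, h (fl x i) = h x) →
    ∑ x, ∑ y, M y x ^ 2 = (Fintype.card ι : ℝ) * 2 ^ Fintype.card ι / 4 →
    (∀ x i, ∑ y, (if y i = x i then 0 else 4 * M y x ^ 2) ≤ 1) →
    ∑ x, ((F x).card : ℝ) ≤ 2 * ∑ x, ∑ y, M y x ^ 2 * (h x + h y) ^ 2

-- deps: GS ISO VAR CPL COMM FRO CNT
def S_CORE : Prop := ∀ (ι : Type) [Fintype ι] [DecidableEq ι] (D : ℕ) (q : (ι → Bool) → ℝ),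
  q ∈ Pd ι D → (∀ x, q x ≠ 0) → ∀ F : (ι → Bool) → Finset ι,
    (∀ x, ∀ i ∈ F x, ¬ (0 < q x ↔ 0 < q (fl x i))) →
    ∑ x, ((F x).card : ℝ) ≤ 6 * D * √(Fintype.card ι : ℝ) * 2 ^ Fintype.card ι

-- deps: CORE
def S_AS : Prop := ∀ (ι : Type) [Fintype ι] [DecidableEq ι] (D : ℕ) (q : (ι → Bool) → ℝ) (θ : ℝ),
  q ∈ Pd ι D → ∀ F : (ι → Bool) → Finset ι,
    (∀ x, ∀ i ∈ F x, ¬ (θ ≤ q x ↔ θ ≤ q (fl x i))) →
    ∑ x, ((F x).card : ℝ) ≤ 6 * D * √(Fintype.card ι : ℝ) * 2 ^ Fintype.card ι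

-- deps:
def S_POLY : Prop := ∀ (ι : Type) [Fintype ι] [DecidableEq ι] (D : ℕ) (p : MvPolynomial ι ℝ),
  p.totalDegree ≤ D →
    (fun x : ι → Bool => MvPolynomial.eval (fun e => if x e = true then (1 : ℝ) else 0) p) ∈ Pd ι D

-- deps: AS
def S_BLK : Prop := ∀ (ι : Type) [Fintype ι] [DecidableEq ι] (D m : ℕ) (q : (ι → Bool) → ℝ)
  (θ : ℝ), q ∈ Pd ι D → ∀ B : Fin m → Finset ι, (Pairwise fun j k => Disjoint (B j) (B k)) →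
    ∀ F : (ι → Bool) → Finset (Fin m),
    (∀ x, ∀ j ∈ F x, ¬ (θ ≤ q x ↔ θ ≤ q fun e => if e ∈ B j then !x e else x e)) →
    ∑ x, ((F x).card : ℝ) ≤ 6 * D * √(m : ℝ) * 2 ^ Fintype.card ι

-- deps: BLK
def S_NOISE : Prop := ∀ (ι : Type) [Fintype ι] [DecidableEq ι] (D : ℕ) (q : (ι → Bool) → ℝ)
  (θ ε : ℝ), q ∈ Pd ι D → 0 ≤ ε → ε ≤ 1 →
    ∑ x : ι → Bool, ∑ y : ι → Bool, (∏ e, if x e = y e then 1 - ε / 2 else ε / 2) *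
      (if (θ ≤ q x ↔ θ ≤ q y) then 0 else 1) ≤ 6 * D * √ε * 2 ^ Fintype.card ι

end Pool.Agent.P.MP_7ffab6_lc.GLC
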