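import Pool.Agent.P.MP_7ffab6_lc.GLC.Iface

/-! Step AS. -/

set_option autoImplicit false
set_option linter.unusedSectionVars false

namespace Pool.Agent.P.MP_7ffab6_lc.GLC

open Finset

theorem p_AS (hCORE : S_CORE) :
    S_AS := by
  intro ι _ _ D q θ hq F hF
  have h0 : ∀ x, ∀ᶠ η in nhds (0 : ℝ), q x < θ → η < θ - q x := fun x => by
    by_cases h : q x < θ
    · exact (gt_mem_nhds (sub_pos.2 h)).mono fun η a _ => a
    · exact Filter.Eventually.of_forall fun η a => absurd a h
  obtain ⟨η, hη, hp⟩ := (((Filter.eventually_all.2 h0).filter_mono nhdsWithin_le_nhds).and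
    (self_mem_nhdsWithin (s := Set.Ioi (0 : ℝ)))).exists
  have hp' : 0 < η := hp
  have k : ∀ x, 0 < q x + (η - θ) ↔ θ ≤ q x := fun x =>
    ⟨fun a => not_lt.1 fun b => by linarith [hη x b], fun a => by linarith⟩
  refine hCORE ι D (q + fun _ => η - θ) (add_mem hq (const_mem _ _)) (fun x e => ?_) F
    fun x i hi => ?_
  · have e' : q x + (η - θ) = 0 := e
    linarith [hη x (by linarith)]
  · simp only [Pi.add_apply, k]
    exact hF x i hi

end Pool.Agent.P.MP_7ffab6_lc.GLC
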