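import Pool.Agent.P.MP_7ffab6_lc.GLC.Iface

/-! Step GS. -/

set_option autoImplicit false
set_option linter.unusedSectionVars false

namespace Pool.Agent.P.MP_7ffab6_lc.GLC

open Finset

namespace GSx

open InnerProductSpace

variable {ι : Type} [Fintype ι] [DecidableEq ι]

theorem exists_ord (ι : Type) [Fintype ι] [DecidableEq ι] :
    ∃ e : Fin (Fintype.card (Finset ι)) ≃ Finset ι,
      ∀ k l, k ≤ l → (e k).card ≤ (e l).card := by
  refine ⟨(Tuple.sort fun k => ((Fintype.equivFin (Finset ι)).symm k).card).trans
    (Fintype.equivFin (Finset ι)).symm, fun k l h => ?_⟩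
  exact Tuple.monotone_sort (fun k => ((Fintype.equivFin (Finset ι)).symm k).card) h

/-- the weighted character as a vector -/
noncomputable def wc (w : (ι → Bool) → ℝ) (S : Finset ι) : EuclideanSpace ℝ (ι → Bool) :=
  WithLp.toLp 2 fun x => w x * chi S x

theorem inner_eq (u v : EuclideanSpace ℝ (ι → Bool)) : inner ℝ u v = ∑ x, u x * v x := by
  rw [PiLp.inner_apply]
  exact sum_congr rfl fun x _ => by simp [mul_comm]

theorem wc_li {w : (ι → Bool) → ℝ} (hw : ∀ x, 0 < w x) : LinearIndependent ℝ (wc w) := by
  rw [Fintype.linearIndependent_iff]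
  intro c hc T
  have h1 : ∀ x, ∑ S, c S * chi S x = 0 := by
    intro x
    have h2 := congrArg (fun v : EuclideanSpace ℝ (ι → Bool) => v x) hc
    simp only [wc, WithLp.ofLp_sum, WithLp.ofLp_smul, Finset.sum_apply, Pi.smul_apply,
      smul_eq_mul, WithLp.ofLp_zero, Pi.zero_apply] at h2
    have h3 : w x * ∑ S, c S * chi S x = 0 := by
      rw [mul_sum, ← h2]
      exact sum_congr rfl fun S _ => by ring
    exact (mul_eq_zero.1 h3).resolve_left (hw x).ne'
  have h4 : ∑ S, c S * ∑ x, chi S x * chi T x = 0 := by
    simp only [mul_sum]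
    rw [sum_comm]
    refine sum_eq_zero fun x _ => ?_
    simp only [← mul_assoc]
    rw [← sum_mul, h1, zero_mul]
  rw [sum_eq_single T (fun S _ hS => by rw [sum_chi_mul hS, mul_zero]) (by simp)] at h4
  simp only [chi_mul_self, sum_const, card_univ, nsmul_eq_mul, mul_one] at h4
  exact (mul_eq_zero.1 h4).resolve_right (Nat.cast_ne_zero.2 Fintype.card_ne_zero)

end GSx

open InnerProductSpace in
theorem p_GS :
    S_GS := by
  intro ι _ _ w hw
  obtain ⟨e, he⟩ := GSx.exists_ord ι
  have hli : LinearIndependent ℝ fun k => GSx.wc w (e k) := (GSx.wc_li hw).comp e e.injective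
  have hd : Module.finrank ℝ (EuclideanSpace ℝ (ι → Bool)) =
      Fintype.card (Fin (Fintype.card (Finset ι))) := by
    simp
  set f : Fin (Fintype.card (Finset ι)) → EuclideanSpace ℝ (ι → Bool) :=
    fun k => GSx.wc w (e k) with hf
  let b := gramSchmidtOrthonormalBasis hd f
  refine ⟨fun x S => b (e.symm S) x, ⟨fun S T => ?_, fun x y => ?_⟩, fun S => ?_,
    fun T d hT a ha => ?_⟩
  · rw [← GSx.inner_eq, orthonormal_iff_ite.1 b.orthonormal]
    simp only [EmbeddingLike.apply_eq_iff_eq]
  · have h1 := b.sum_inner_mul_inner (EuclideanSpace.single x (1 : ℝ))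
      (EuclideanSpace.single y (1 : ℝ))
    simp only [EuclideanSpace.inner_single_left, EuclideanSpace.inner_single_right, map_one,
      one_mul, conj_trivial] at h1
    rw [e.symm.sum_comp (fun k => b k x * b k y), h1]
    by_cases h : x = y
    · simp [h]
    · simp [h, Ne.symm h]
  · have h0 : gramSchmidtNormed ℝ f (e.symm S) ≠ 0 := by
      intro h
      have := gramSchmidtNormed_unit_length (e.symm S) hli
      rw [h, norm_zero] at this
      exact zero_ne_one this
    have h1 : b (e.symm S) ∈ Submodule.span ℝ (f '' Set.Iic (e.symm S)) := by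
      rw [gramSchmidtOrthonormalBasis_apply hd h0, gramSchmidtNormed]
      exact Submodule.smul_mem _ _ (gramSchmidt_mem_span ℝ f le_rfl)
    show ∃ a ∈ Pd ι S.card, ∀ x, b (e.symm S) x = w x * a x
    generalize b (e.symm S) = v at h1
    induction h1 using Submodule.span_induction with
    | mem v h =>
      obtain ⟨k, hk, rfl⟩ := h
      refine ⟨chi (e k), chi_mem ?_, fun x => rfl⟩
      simpa using he k (e.symm S) hk
    | zero => exact ⟨0, zero_mem _, fun x => by simp⟩
    | add u v _ _ h1 h2 =>
      obtain ⟨a, a1, a2⟩ := h1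
      obtain ⟨c, c1, c2⟩ := h2
      exact ⟨a + c, add_mem a1 c1, fun x => by simp [a2, c2, mul_add]⟩
    | smul r u _ h1 =>
      obtain ⟨a, a1, a2⟩ := h1
      exact ⟨r • a, Submodule.smul_mem _ _ a1, fun x => by simp [a2, mul_left_comm]⟩
  · show ∑ x, w x * a x * b (e.symm T) x = 0
    induction ha using Submodule.span_induction with
    | mem g h =>
      obtain ⟨S, hS, rfl⟩ := h
      have hlt : e.symm S < e.symm T := by
        by_contra hn
        have := he _ _ (not_lt.1 hn)
        simp only [Equiv.apply_symm_apply] at this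
        omega
      have h1 := gramSchmidtOrthonormalBasis_inv_triangular hd f hlt
      rw [GSx.inner_eq] at h1
      rw [← h1]
      refine sum_congr rfl fun x _ => ?_
      simp only [hf, Equiv.apply_symm_apply, GSx.wc]
      exact mul_comm _ _
    | zero => simp
    | add g k _ _ h1 h2 =>
      simp only [Pi.add_apply, mul_add, add_mul, sum_add_distrib, h1, h2, add_zero]
    | smul c g _ h1 =>
      have : ∀ x, w x * (c • g) x * b (e.symm T) x = c * (w x * g x * b (e.symm T) x) :=
        fun x => by simp only [Pi.smul_apply, smul_eq_mul]; ring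
      simp only [this, ← mul_sum, h1, mul_zero]

end Pool.Agent.P.MP_7ffab6_lc.GLC
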